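import Pool.Agent.Helper42.TGX.GoalsD

/-!
# Project TGX (MP_a41896_nt), packet QFM: a multiplicative positive quadratic form
-/

set_option autoImplicit false

namespace Pool.Agent.Helper66.TGX

section

variable {R : Type} [CommRing R] {N : R → ℤ}
  (hpar : ∀ a b, N (a + b) + N (a - b) = 2 * N a + 2 * N b)
include hpar

theorem par_zero : N 0 = 0 := by
  have h := hpar 0 0
  rw [add_zero, sub_zero] at h
  omega

theorem par_three (x y z : R) :
    N (x + y + z) = N (x + y) + N (x + z) + N (y + z) - N x - N y - N z := by
  have p1 := hpar (x + y) z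
  have p2 := hpar (x + z) y
  have p3 := hpar x (y - z)
  have p4 := hpar y z
  rw [show x + z + y = x + y + z by ring, show x + z - y = x - (y - z) by ring] at p2
  rw [show x + (y - z) = x + y - z by ring] at p3
  omega

/-- The polar form. -/
def pol (y : R) : R →+ ℤ :=
  AddMonoidHom.mk' (fun x => N (x + y) - N x - N y) (by
    intro a b
    have h := par_three hpar a b y
    show N (a + b + y) - N (a + b) - N y = (N (a + y) - N a - N y) + (N (b + y) - N b - N y)
    omega)

theorem pol_apply (y x : R) : pol hpar y x = N (x + y) - N x - N y := rfl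

theorem pol_comm (x y : R) : pol hpar y x = pol hpar x y := by
  rw [pol_apply, pol_apply, add_comm]
  ring

theorem pol_self (x : R) : pol hpar x x = 2 * N x := by
  have h := hpar x x
  rw [sub_self, par_zero hpar] at h
  rw [pol_apply]
  omega

theorem pol_mul (hmul : ∀ a b, N (a * b) = N a * N b) (x a b : R) :
    pol hpar (x * b) (x * a) = N x * pol hpar b a := by
  rw [pol_apply, pol_apply, ← mul_add, hmul, hmul, hmul]
  ring

theorem pol_mul' (hmul : ∀ a b, N (a * b) = N a * N b) (x y a b : R) :
    pol hpar (y * b) (x * a) + pol hpar (x * b) (y * a) = pol hpar y x * pol hpar b a := by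
  have h1 := pol_mul hpar hmul (x + y) a b
  have h2 : pol hpar ((x + y) * b) ((x + y) * a) =
      pol hpar (x * b) (x * a) + pol hpar (x * b) (y * a) +
        (pol hpar (y * b) (x * a) + pol hpar (y * b) (y * a)) := by
    rw [add_mul x y a, map_add, pol_comm hpar (x * a), pol_comm hpar (y * a), add_mul x y b,
      map_add, map_add, pol_comm hpar (x * b) (x * a), pol_comm hpar (y * b) (x * a),
      pol_comm hpar (x * b) (y * a), pol_comm hpar (y * b) (y * a)]
    ring
  rw [h1, pol_mul hpar hmul x a b, pol_mul hpar hmul y a b] at h2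
  have h3 : N (x + y) = N x + N y + pol hpar y x := by
    rw [pol_apply]
    ring
  rw [h3] at h2
  linear_combination -h2

end

theorem t_QFM : Pool.Agent.Helper42.TGX.QFM := by
  intro R _ N h1 h0 _ hmul hpar a
  set t : ℤ := N (a + 1) - N a - 1 with ht
  set z : R := a * a - (t : R) * a + ((N a : ℤ) : R) with hz
  have key : ∀ y, pol hpar y z = 0 := by
    intro y
    have k1 := pol_mul' hpar hmul a y a 1
    have k2 := pol_mul hpar hmul a y 1
    have k3 : pol hpar 1 a = t := by
      rw [pol_apply, h1]
    rw [mul_one, mul_one, k3] at k1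
    rw [mul_one, mul_comm a y] at k2
    rw [k2] at k1
    have e : z = a * a - t • a + (N a) • (1 : R) := by
      rw [hz, zsmul_eq_mul, zsmul_eq_mul, mul_one]
    rw [e, map_add, map_sub, map_zsmul, map_zsmul, smul_eq_mul, smul_eq_mul,
      pol_comm hpar 1 y]
    linear_combination k1
  have h2 := key z
  rw [pol_self] at h2
  exact h0 z (by omega)

end Pool.Agent.Helper66.TGX
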